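import Mathlib

set_option autoImplicit false

open Polynomial

namespace Pool.Agent.Results.MP_2eeab0_an.Disproof

variable {K : Type*} [Field K]

/-- The affine map `z ↦ a z + b` as a polynomial. -/
noncomputable def aff (a b : K) : K[X] := C a * X + C b

/-- `Z` is an irreducible algebraic curve in the affine plane: the zero set of an irreducible
polynomial in two variables (an element of `K[x][y]`). -/
def IsIrredCurve (Z : Set (K × K)) : Prop :=
  ∃ F : K[X][X], Irreducible F ∧ Z = {p : K × K | (F.eval (C p.2)).eval p.1 = 0}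

/-- `P` and `Q` (of the same degree) are intertwined: the map `(z,w) ↦ (P(z),Q(w))` leaves
invariant (maps onto itself) an irreducible algebraic curve projecting onto both axes. -/
def Intertwined (P Q : K[X]) : Prop :=
  P.natDegree = Q.natDegree ∧ ∃ Z : Set (K × K), IsIrredCurve Z ∧
    (fun p : K × K => (P.eval p.1, Q.eval p.2)) '' Z = Z ∧
    (∀ z : K, ∃ w : K, (z, w) ∈ Z) ∧ (∀ w : K, ∃ z : K, (z, w) ∈ Z)

/-- `A⁻¹ ∘ P ∘ A = Q` for the affine map `A(z) = a z + b`. -/
def ConjBy (a b : K) (P Q : K[X]) : Prop :=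
  a ≠ 0 ∧ P.comp (aff a b) = (aff a b).comp Q

/-- `T` is the Chebyshev polynomial `T_d`, normalised by `T_d(w+w⁻¹) = w^d + w^{-d}`. -/
def IsCheb (d : ℕ) (T : K[X]) : Prop :=
  ∀ w : K, w ≠ 0 → T.eval (w + w⁻¹) = w ^ d + (w⁻¹) ^ d

/-- `P` is affinely conjugate to `z^d` or `± T_d`, where `d` is the degree of `P`. -/
def Integrable (P : K[X]) : Prop :=
  ∃ a b : K, ∃ Q : K[X], ConjBy a b P Q ∧
    (Q = X ^ P.natDegree ∨ IsCheb P.natDegree Q ∨ IsCheb P.natDegree (-Q))

/-- `P` is monic and centered: leading coefficient one, next coefficient zero. -/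
def MonicCentered (P : K[X]) : Prop :=
  P.Monic ∧ P.coeff (P.natDegree - 1) = 0

/-- `P = z^μ P₀(z^m)` is the reduced form of a polynomial which is not a monomial:
`P₀` is not `1`, `P₀(0) ≠ 0` and `P₀` is not a polynomial in `z^l` with `l ≥ 2`. -/
def ReducedForm (P : K[X]) (μ m : ℕ) (P₀ : K[X]) : Prop :=
  1 ≤ m ∧ P = X ^ μ * P₀.comp (X ^ m) ∧ P₀.eval 0 ≠ 0 ∧ P₀ ≠ 1 ∧
    ∀ l : ℕ, 2 ≤ l → ∀ Q : K[X], P₀ ≠ Q.comp (X ^ l)

/-- The rotation `z ↦ ζ z` belongs to the symmetry group of the monic centered polynomial `P`. -/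
def InSigmaCentered (P : K[X]) (ζ : K) : Prop :=
  ((∃ d : ℕ, P = X ^ d) ∧ ∃ n : ℕ, 0 < n ∧ ζ ^ n = 1) ∨
    ∃ (μ m : ℕ) (P₀ : K[X]), ReducedForm P μ m P₀ ∧ ζ ^ m = 1

/-- The affine map `g` belongs to the symmetry group `Σ(P)`: there is an affine `A` with
`A⁻¹ ∘ P ∘ A` monic and centered and `A⁻¹ ∘ g ∘ A` a rotation in the group of the latter. -/
def InSigma (P : K[X]) (g : K[X]) : Prop :=
  ∃ a b : K, ∃ Q : K[X], ConjBy a b P Q ∧ MonicCentered Q ∧
    ∃ ζ : K, InSigmaCentered Q ζ ∧ ConjBy a b g (aff ζ 0)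

/-- the polynomial `z³ - 12 z` -/
noncomputable def P₁ (K : Type*) [Field K] : K[X] := X ^ 3 - C 12 * X

theorem P₁_natDegree : (P₁ K).natDegree = 3 := by
  rw [P₁]
  compute_degree!

/-- comparison of coefficients of a conjugate of `P₁`. -/
theorem conj_form {a b : K} {Q : K[X]} (h : ConjBy a b (P₁ K) Q) :
    Q = C (a ^ 2) * X ^ 3 + C (3 * a * b) * X ^ 2 + C (3 * b ^ 2 - 12) * X +
      C (a⁻¹ * (b ^ 3 - 13 * b)) := by
  obtain ⟨ha, h⟩ := h
  have h1 : (aff a b).comp Q = C a * Q + C b := by simp [aff]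
  rw [h1] at h
  have h2 : Q = C a⁻¹ * ((P₁ K).comp (aff a b) - C b) := by
    rw [h, add_sub_cancel_right, ← mul_assoc, ← C_mul, inv_mul_cancel₀ ha, C_1, one_mul]
  rw [h2, P₁]
  have e1 : (C a⁻¹ : K[X]) * C a = 1 := by rw [← C_mul, inv_mul_cancel₀ ha, C_1]
  simp only [sub_comp, pow_comp, X_comp, mul_comp, C_comp, aff]
  simp only [C_mul, C_sub, C_pow, map_ofNat]
  linear_combination (C a ^ 2 * X ^ 3 + 3 * C a * C b * X ^ 2 + (3 * C b ^ 2 - 12) * X) * e1

theorem coeffs {a b c d : K} : (C a * X ^ 3 + C b * X ^ 2 + C c * X + C d : K[X]).coeff 3 = a ∧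
    (C a * X ^ 3 + C b * X ^ 2 + C c * X + C d : K[X]).coeff 2 = b ∧
    (C a * X ^ 3 + C b * X ^ 2 + C c * X + C d : K[X]).coeff 1 = c ∧
    (C a * X ^ 3 + C b * X ^ 2 + C c * X + C d : K[X]).coeff 0 = d := by
  refine ⟨?_, ?_, ?_, ?_⟩ <;> simp [coeff_X, coeff_C]

theorem not_integrable [CharZero K] [IsAlgClosed K] : ¬ Integrable (P₁ K) := by
  rintro ⟨a, b, Q, hQ, hc⟩
  have ha := hQ.1
  have hf := conj_form hQ
  obtain ⟨c3, c2, c1, c0⟩ := coeffs (K := K) (a := a ^ 2) (b := 3 * a * b) (c := 3 * b ^ 2 - 12)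
    (d := a⁻¹ * (b ^ 3 - 13 * b))
  rw [← hf] at c3 c2 c1 c0
  rw [P₁_natDegree] at hc
  have hb : Q.coeff 2 = 0 → b = 0 := by
    intro h
    rw [c2] at h
    have h3 : (3 : K) ≠ 0 := by norm_num
    simpa [ha, h3] using h
  have cheb : ∀ T : K[X], IsCheb 3 T → T = X ^ 3 - 3 * X := by
    intro T hT
    apply Polynomial.funext
    intro r
    obtain ⟨w, hw⟩ := IsAlgClosed.exists_root (X ^ 2 - C r * X + 1 : K[X]) (by
      have : (X ^ 2 - C r * X + 1 : K[X]).degree = 2 := by compute_degree!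
      rw [this]; norm_num)
    have hw' : w ^ 2 - r * w + 1 = 0 := by simpa [IsRoot] using hw
    have hw0 : w ≠ 0 := by
      rintro rfl
      simp at hw'
    have hr : r = w + w⁻¹ := by
      field_simp
      linear_combination -hw'
    rw [hr, hT w hw0]
    simp
    field_simp
    ring
  rcases hc with h | h | h
  · have hb0 := hb (by rw [h]; simp [coeff_X_pow])
    have : Q.coeff 1 = 0 := by rw [h]; simp [coeff_X_pow]
    rw [c1, hb0] at this
    norm_num at this
  · have hT := cheb Q h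
    have hb0 := hb (by rw [hT]; simp [coeff_X_pow, coeff_X])
    have : Q.coeff 1 = -3 := by rw [hT]; simp [coeff_X_pow]
    rw [c1, hb0] at this
    norm_num at this
  · have hT := cheb (-Q) h
    have hT' : Q = - (X ^ 3 - 3 * X) := by rw [← hT, neg_neg]
    have hb0 := hb (by rw [hT']; simp [coeff_X_pow, coeff_X])
    have : Q.coeff 1 = 3 := by rw [hT']; simp [coeff_X_pow]
    rw [c1, hb0] at this
    norm_num at this

/-- the affine map `z ↦ 4 z + 60` -/
noncomputable def g₁ (K : Type*) [Field K] : K[X] := aff 4 60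

theorem g₁_not_sigma [CharZero K] : ¬ InSigma (P₁ K) (g₁ K) := by
  rintro ⟨a, b, Q, hQ, ⟨hm, hcen⟩, ζ, hζ, hg⟩
  have ha := hQ.1
  have hf := conj_form hQ
  obtain ⟨c3, c2, c1, c0⟩ := coeffs (K := K) (a := a ^ 2) (b := 3 * a * b) (c := 3 * b ^ 2 - 12)
    (d := a⁻¹ * (b ^ 3 - 13 * b))
  have hd : Q.natDegree = 3 := by
    rw [hf]
    have : a ^ 2 ≠ 0 := by positivity
    compute_degree!
  rw [← hf] at c3 c2 c1 c0
  rw [hd] at hcen
  have hb : b = 0 := by
    have h3 : (3 : K) ≠ 0 := by norm_num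
    rw [show 3 - 1 = 2 from rfl, c2] at hcen
    simpa [ha, h3] using hcen
  subst hb
  have h := congrArg (Polynomial.eval 0) hg.2
  simp [g₁, aff] at h

theorem irred [CharZero K] : Irreducible (X ^ 2 - C (C 8 * X + C 128) : K[X][X]) := by
  have hdeg : (X ^ 2 - C (C 8 * X + C 128) : K[X][X]).natDegree = 2 := by
    compute_degree!
  have hmon : (X ^ 2 - C (C 8 * X + C 128) : K[X][X]).Monic := by
    monicity!
  rw [hmon.irreducible_iff_roots_eq_zero_of_degree_le_three (by rw [hdeg]) (by rw [hdeg]; norm_num)]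
  rw [Multiset.eq_zero_iff_forall_notMem]
  intro r hr
  rw [mem_roots hmon.ne_zero, IsRoot] at hr
  have h1 : r ^ 2 = C 8 * X + C 128 := by
    simpa [sub_eq_zero] using hr
  have h2 := congrArg natDegree h1
  rw [natDegree_pow] at h2
  have h8 : (8 : K) ≠ 0 := by norm_num
  have h3 : (C 8 * X + C 128 : K[X]).natDegree = 1 := by compute_degree!
  rw [h3] at h2
  omega

theorem intertwined [CharZero K] [IsAlgClosed K] :
    Intertwined ((P₁ K).comp (g₁ K)) (P₁ K) := by
  have h8 : (8 : K) ≠ 0 := by norm_num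
  have hmem : ∀ z w : K, (z, w) ∈ {p : K × K | ((X ^ 2 - C (C 8 * X + C 128) : K[X][X]).eval
      (C p.2)).eval p.1 = 0} ↔ z = (w ^ 2 - 128) / 8 := by
    intro z w
    simp only [Set.mem_ofPred_eq, eval_sub, eval_pow, eval_X, eval_C, eval_add, eval_mul, ← C_pow]
    constructor
    · intro h
      field_simp
      linear_combination -h
    · intro h
      rw [h]
      field_simp
      ring
  refine ⟨?_, _, ⟨_, irred, rfl⟩, ?_, ?_, ?_⟩
  · rw [natDegree_comp, P₁_natDegree]
    have : (g₁ K).natDegree = 1 := by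
      rw [g₁, aff]
      have : (4 : K) ≠ 0 := by norm_num
      compute_degree!
    rw [this]
  · ext ⟨z, w⟩
    simp only [Set.mem_image, Prod.exists, Prod.mk.injEq]
    rw [hmem]
    constructor
    · rintro ⟨x, y, hxy, h1, h2⟩
      rw [hmem] at hxy
      rw [← h1, ← h2, hxy]
      simp [P₁, g₁, aff]
      field_simp
      ring
    · intro h
      obtain ⟨y, hy⟩ := IsAlgClosed.exists_root (P₁ K - C w) (by
        have : (P₁ K - C w).degree = 3 := by
          rw [P₁]
          compute_degree!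
        rw [this]; norm_num)
      have hy' : (P₁ K).eval y = w := by simpa [IsRoot, sub_eq_zero] using hy
      refine ⟨(y ^ 2 - 128) / 8, y, (hmem _ _).2 rfl, ?_, hy'⟩
      rw [h, ← hy']
      simp [P₁, g₁, aff]
      field_simp
      ring
  · intro z
    obtain ⟨w, hw⟩ := IsAlgClosed.exists_pow_nat_eq (8 * z + 128) (n := 2) (by norm_num)
    refine ⟨w, (hmem _ _).2 ?_⟩
    rw [hw]
    field_simp
    ring
  · intro w
    exact ⟨_, (hmem _ _).2 rfl⟩

/-- Over every algebraically closed field of characteristic zero there are a non-integrable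
polynomial `P` of degree at least two and an affine map `g` outside `Σ(P)` such that `P ∘ g` and
`P` are intertwined: `P(z) = z³ - 12 z`, `g(z) = 4 z + 60`. -/
theorem result (K : Type*) [Field K] [CharZero K] [IsAlgClosed K] :
    ∃ (P : K[X]) (a b : K), 2 ≤ P.natDegree ∧ ¬ Integrable P ∧ a ≠ 0 ∧
      ¬ InSigma P (aff a b) ∧ Intertwined (P.comp (aff a b)) P :=
  ⟨P₁ K, 4, 60, by rw [P₁_natDegree]; norm_num, not_integrable, by norm_num, g₁_not_sigma,
    intertwined⟩

end Pool.Agent.Results.MP_2eeab0_an.Disproof
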